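import Mathlib
import Pool.Agent.Q37.QA.Final

/-!
A separated scheme which is not quasi-affine although its perfect complexes are generated by the
structure sheaf.

The scheme is the blow-up of the affine line over `k[[s]]` at a closed point, minus a closed point
of the exceptional curve: it is obtained by gluing the spectra of `k[[s]][x, t] / (x t - s)` and of
`k((s))[x]` along the spectrum of `k((s))[x, 1 / x]`.

`isPerfect X` is the full subcategory of the derived category of all modules over the structure
sheaf of `X` whose objects are locally isomorphic to bounded complexes of finite locally free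
modules. `unitD X` is the structure sheaf, as an object of the derived category.
-/

universe u

open CategoryTheory CategoryTheory.Limits AlgebraicGeometry

namespace Pool.Agent.Results.MP_7fa3bd_ag.BlowupMinusPoint

open Pool.Agent.W456

attribute [local instance] HasDerivedCategory.standard Abelian.hasFiniteBiproducts

theorem result (k : Type u) [Field k] :
    ∃ (X : Scheme.{u}) (_ : X ⟶ Spec (CommRingCat.of k)),
      X.IsSeparated ∧ IsNoetherian X ∧ IsIntegral X ∧
      (∀ (Y : Scheme.{u}) [IsAffine Y] (j : X ⟶ Y), ¬ IsOpenImmersion j) ∧
      isPerfect X ≤ (ObjectProperty.singleton (unitD X)).triangEnvelope := by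
  obtain ⟨X, f, h1, h2, h3, h4, h5⟩ := Pool.Agent.Q37.QA.exists_counterexample k
  refine ⟨X, f, h1, h2, h3, ?_, h5⟩
  intro Y hY j hj
  exact h4 (Scheme.IsQuasiAffine.of_isImmersion j)

end Pool.Agent.Results.MP_7fa3bd_ag.BlowupMinusPoint
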